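import Pool.Agent.MP_8be872_ag.H63.SpecC
import Pool.Agent.MP_8be872_ag.H63.ApiA

/-! Weights on the slice. -/

namespace Pool.Agent.MP_8be872_ag.H52

open Finset H38 H56 H63 MvPolynomial

section Subst

variable {E O : Type} [Fintype E] [Fintype O] [DecidableEq E] [DecidableEq O]

theorem pol_mul {P P' P'' : (E ⊕ O → ℕ) → Prop} {f g : MvPolynomial E ℂ}
    (hf : (pol f : Sp E O) ∈ mono P) (hg : (pol g : Sp E O) ∈ mono P')
    (h : ∀ a b, P a → P' b → P'' (a + b)) : (pol (f * g) : Sp E O) ∈ mono P'' := by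
  rw [← mul_one_eq, mul_mul, Module.End.mul_apply, mul_one_eq]
  exact words_apply_mem (mul_mem_words_of_pol hf) hg h

theorem subst_mem {Γ Γ' : Type} [AddCommMonoid Γ] [AddCommMonoid Γ'] {A A' : E ⊕ O → Prop}
    {c : E ⊕ O → Γ} {c' : E ⊕ O → Γ'} (Λ : Γ →+ Γ') (ρ : E → MvPolynomial E ℂ)
    (hρ : ∀ e, A (.inl e) →
      (pol (ρ e) : Sp E O) ∈ mono fun μ => sup A' μ ∧ ws c' μ = Λ (c (.inl e)))
    {F : MvPolynomial E ℂ} {ψ : Γ} (hF : (pol F : Sp E O) ∈ mono fun μ => sup A μ ∧ ws c μ = ψ) :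
    (pol (aeval ρ F) : Sp E O) ∈ mono fun μ => sup A' μ ∧ ws c' μ = Λ ψ := by
  have h0 : (pol (aeval ρ (monomial 0 (1 : ℂ))) : Sp E O) ∈
      mono fun μ => sup A' μ ∧ ws c' μ = Λ (ws c (ex ∅ 0)) := by
    rw [ex_zero, ws_zero, map_zero, monomial_zero', map_one, map_one]
    exact one_mem ⟨fun _ h => absurd rfl h, ws_zero _⟩
  have h1 : ∀ m e, sup A (ex ∅ (m + Finsupp.single e 1)) →
      (sup A (ex ∅ m) → (pol (aeval ρ (monomial m (1 : ℂ))) : Sp E O) ∈
        mono fun μ => sup A' μ ∧ ws c' μ = Λ (ws c (ex ∅ m))) →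
      (pol (aeval ρ (monomial (m + Finsupp.single e 1) (1 : ℂ))) : Sp E O) ∈
        mono fun μ => sup A' μ ∧ ws c' μ = Λ (ws c (ex ∅ (m + Finsupp.single e 1))) := by
    intro m e hs ih
    rw [ex_add, H63.sup_add, sup_single] at hs
    rw [monomial_add_single, pow_one, map_mul, aeval_X, ex_add, ws_add, ws_single, map_add]
    exact pol_mul (ih hs.1) (hρ e hs.2) fun a b ha hb =>
      ⟨H63.sup_add.2 ⟨ha.1, hb.1⟩, by rw [ws_add, ha.2, hb.2]⟩
  have h2 : ∀ m, sup A (ex ∅ m) → (pol (aeval ρ (monomial m (1 : ℂ))) : Sp E O) ∈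
      mono fun μ => sup A' μ ∧ ws c' μ = Λ (ws c (ex ∅ m)) := by
    intro m
    induction m using Finsupp.induction₂ with
    | zero => exact fun _ => h0
    | add_single e n m he hn ih =>
      clear hn
      induction n with
      | zero => rwa [Finsupp.single_zero, add_zero]
      | succ n ih' =>
        rw [Finsupp.single_add, ← add_assoc]
        exact fun hs => h1 _ e hs ih'
  change LinearMap.single ℂ (fun _ : Finset O => MvPolynomial E ℂ) ∅ (aeval ρ F) ∈ _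
  rw [F.as_sum, map_sum, map_sum]
  refine Submodule.sum_mem _ fun m hm => ?_
  rw [← mul_one (coeff m F), ← smul_eq_mul, ← smul_monomial, map_smul, map_smul]
  obtain ⟨h3, h4⟩ := pol_mem.1 hF m (mem_support_iff.1 hm)
  exact Submodule.smul_mem _ _ (h4 ▸ h2 m h3)

end Subst

variable {Q : Quiv} {w v D : Fin Q.n → ℕ} {σ : Bas Q v ≃ Bas Q v} {d : Bas Q v → ℕ}
  {lab : Bas Q D → Bas Q v × ℕ}

theorem hp_some {p : Nb Q w v D} (h : blk p < 2) : ∃ a k, hp lab p = some (a, k) := by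
  rcases p with τ | a | b
  · exact ⟨_, _, rfl⟩
  · exact ⟨_, _, rfl⟩
  · simp [blk] at h

theorem pos_lv {p : Nb Q w v D} {a : Bas Q v} {k : ℕ} (h : hp lab p = some (a, k)) :
    lv d lab p = d a - k ∧ xs σ d lab p = xV (σ a).1 (σ a).2 + lv d lab p • qq := by
  rcases p with τ | b | b
  · obtain ⟨rfl, rfl⟩ := Prod.mk.inj (Option.some.inj h)
    exact ⟨by simp [lv], rfl⟩
  · obtain ⟨rfl, rfl⟩ := Prod.mk.inj (Option.some.inj h)
    exact ⟨by simp [lv], rfl⟩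
  · cases h

theorem pos_vx (hl : IsLab d lab) {p : Nb Q w v D} {a : Bas Q v} {k : ℕ}
    (h : hp lab p = some (a, k)) : vx p = a.1 ∧ k ≤ d a ∧ blk p < 2 := by
  rcases p with τ | b | b
  · obtain ⟨rfl, rfl⟩ := Prod.mk.inj (Option.some.inj h)
    exact ⟨(hl.vert τ).symm, hl.lt τ, by simp [blk]⟩
  · obtain ⟨rfl, rfl⟩ := Prod.mk.inj (Option.some.inj h)
    exact ⟨rfl, Nat.zero_le _, by simp [blk]⟩
  · cases h

theorem blk_zero {q : Nb Q w v D} (h : blk q = 0) : ∃ τ, q = .inl τ := by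
  rcases q with τ | b | b
  · exact ⟨τ, rfl⟩
  · simp [blk] at h
  · simp [blk] at h

theorem top_pos (hl : IsLab d lab) {p : Nb Q w v D} (h : blk p < 2) (ht : top lab p) :
    ∃ a, hp lab p = some (a, d a) := by
  obtain ⟨a, k, hk⟩ := hp_some (lab := lab) h
  refine ⟨a, ?_⟩
  rcases (pos_vx hl hk).2.1.eq_or_lt with rfl | h1
  · exact hk
  · obtain ⟨τ, hτ⟩ := hl.surj a k h1
    have := ht (.inl τ)
    simp [al0, hτ, hk] at this

theorem co0_xs (p : Nb Q w v D) : co 0 (xs σ d lab p) = lv d lab p := by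
  rcases p with τ | b | b <;> simp [xs, xV, uF, qq, co_gen]

theorem co0_arr (ε : Arr Q) : co 0 (arrWt Q ε) = 0 := by
  rcases ε with ⟨_ | e, _ | _⟩ <;> simp [arrWt, tau, tE, co_gen]

theorem free_gen {s : ℕ} (h : s % 3 ≠ 1 ∨ s < 4) : free (gen s) := fun i a => by
  change co _ (gen s) = 0
  rw [co_gen, if_neg (by omega)]

/-- The linear form separating the conormal directions. -/
noncomputable def ell (σ : Bas Q v ≃ Bas Q v) (d : Bas Q v → ℕ) (M M' : ℤ) : G →+ ℤ :=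
  M • co 0 + M' • co 1 +
    ∑ a, (-((a.2 : ℕ) : ℤ) - M * d a) • co (3 * Nat.pair (σ a).1 (σ a).2 + 4)

theorem ell_gen (M M' : ℤ) {s : ℕ} (h : s % 3 ≠ 1 ∨ s < 4) :
    ell σ d M M' (gen s) = (if s = 0 then M else 0) + if s = 1 then M' else 0 := by
  have h1 : ∀ a : Bas Q v, co (3 * Nat.pair (σ a).1 (σ a).2 + 4) (gen s) = 0 :=
    fun a => free_gen h _ _
  simp [ell, h1, co_gen]

theorem ell_xV (M M' : ℤ) (a : Bas Q v) :
    ell σ d M M' (xV (σ a).1 (σ a).2) = -((a.2 : ℕ) : ℤ) - M * d a := by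
  have h1 : ∀ b : Bas Q v, (3 * Nat.pair (σ a).1 (σ a).2 + 4 = 3 * Nat.pair (σ b).1 (σ b).2 + 4) ↔
      a = b := fun b => by
    refine ⟨fun h => σ.injective ?_, fun h => by rw [h]⟩
    have h2 := Nat.pair_eq_pair.1 (show Nat.pair (σ a).1 (σ a).2 = Nat.pair (σ b).1 (σ b).2 by omega)
    exact Sigma.ext (Fin.ext h2.1) ((Fin.heq_ext_iff (by rw [Fin.ext h2.1])).2 h2.2)
  simp only [ell, xV, AddMonoidHom.add_apply, AddMonoidHom.smul_apply, AddMonoidHom.finsetSum_apply,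
    co_gen, h1]
  simp

theorem ell_qq (M M' : ℤ) : ell σ d M M' qq = M := by simp [qq, ell_gen]

theorem ell_tau (M M' : ℤ) : ell σ d M M' tau = M' := by simp [tau, ell_gen]

theorem ell_arr (M M' : ℤ) (ε : Arr Q) : ell σ d M M' (arrWt Q ε) = -M' := by
  have h : ∀ e, ell σ d M M' (tE e) = 0 := fun e => by
    rw [tE, ell_gen _ _ (by omega), if_neg (by omega), if_neg (by omega), add_zero]
  rcases ε with ⟨_ | e, _ | _⟩ <;> simp [arrWt, ell_tau, h]

theorem ell_pos (M M' : ℤ) {p : Nb Q w v D} {a : Bas Q v} {k : ℕ} (h : hp lab p = some (a, k)) :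
    ell σ d M M' (xs σ d lab p) = -((a.2 : ℕ) : ℤ) - M * k := by
  rw [(pos_lv h).2, (pos_lv (σ := σ) h).1, map_add, map_zsmul, ell_xV, ell_qq, smul_eq_mul]
  ring

theorem idx_lt (a : Bas Q v) : ((a.2 : ℕ) : ℤ) < ((∑ i, v i : ℕ) : ℤ) :=
  Int.ofNat_lt.2 (a.2.2.trans_le
    (single_le_sum (f := v) (fun _ _ => Nat.zero_le _) (mem_univ a.1)))

theorem ell_bd (hl : IsLab d lab) (M' : ℤ) (p : Nb Q w v D) :
    ell σ d ((∑ i, v i : ℕ) : ℤ) M' (xs σ d lab p) ≤ 0 ∧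
      -(((∑ i, v i : ℕ) : ℤ) * (1 + (∑ a, d a : ℕ))) ≤
        ell σ d ((∑ i, v i : ℕ) : ℤ) M' (xs σ d lab p) := by
  by_cases h : blk p < 2
  · obtain ⟨a, k, hk⟩ := hp_some (lab := lab) h
    have h1 : (k : ℤ) ≤ (∑ a, d a : ℕ) := Int.ofNat_le.2 ((pos_vx hl hk).2.1.trans
      (single_le_sum (f := d) (fun _ _ => Nat.zero_le _) (mem_univ a)))
    have h2 := idx_lt a
    rw [ell_pos _ _ hk]
    constructor <;> nlinarith [Int.natCast_nonneg (a.2 : ℕ), Int.natCast_nonneg k]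
  · rcases p with τ | b | b
    · simp [blk] at h
    · simp [blk] at h
    · have : ell σ d ((∑ i, v i : ℕ) : ℤ) M' (xs σ d lab (.inr (.inr b) : Nb Q w v D)) = 0 := by
        simp only [xs, lv, zero_smul, add_zero, uF]
        rw [ell_gen _ _ (by omega), if_neg (by omega), if_neg (by omega), add_zero]
      rw [this]
      exact ⟨le_rfl, neg_nonpos.2 (by positivity)⟩

theorem ne_shS (hl : IsLab d lab) {p q : Nb Q w v D} (h : isNe d lab p q) : shS lab ka p q := by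
  obtain ⟨a, τ, h1, rfl, h2, -⟩ := h
  refine ⟨⟨⟨(pos_vx hl h1).1.trans h2, (pos_vx hl h1).2.2, by simp [blk]⟩, rfl⟩, fun _ q => ?_⟩
  rcases q with τ' | q
  · refine if_neg fun h => ?_
    have h3 := hl.lt τ'
    rw [← Option.some.inj (h1.symm.trans h)] at h3
    exact lt_irrefl _ h3
  · rfl

theorem ell_al (hl : IsLab d lab) (M' : ℤ) {p q : Nb Q w v D} (h : shS lab ka p q) :
    (isNe d lab p q → ell σ d ((∑ i, v i : ℕ) : ℤ) M' (xs σ d lab q - xs σ d lab p - -qq) < 0) ∧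
    (¬ isNe d lab p q →
      0 < ell σ d ((∑ i, v i : ℕ) : ℤ) M' (xs σ d lab q - xs σ d lab p - -qq)) := by
  obtain ⟨⟨⟨h1, h2, -⟩, h3⟩, h4⟩ := h
  obtain ⟨τ, rfl⟩ := blk_zero h3
  obtain ⟨a, ha⟩ := top_pos hl h2 (h4 rfl)
  have h5 := idx_lt a
  have h6 := idx_lt (lab τ).1
  have h7 := Int.natCast_nonneg (a.2 : ℕ)
  have h8 := Int.natCast_nonneg ((lab τ).1.2 : ℕ)
  have h9 : a.1 = τ.1 := (pos_vx hl ha).1.symm.trans h1
  rw [map_sub, map_sub, map_neg, ell_qq, ell_pos _ _ ha,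
    ell_pos (p := .inl τ) (a := (lab τ).1) (k := (lab τ).2 + 1) _ _ rfl]
  generalize ((∑ i, v i : ℕ) : ℤ) = M at *
  push_cast
  constructor
  · rintro ⟨a', τ', e1, e2, -, e3⟩
    obtain rfl := Sum.inl.inj e2
    obtain rfl := (Prod.mk.inj (Option.some.inj (ha.symm.trans e1))).1
    rcases e3 with e3 | ⟨e3, e4⟩
    · have : (d a : ℤ) + 1 ≤ (lab τ).2 := by exact_mod_cast e3
      nlinarith
    · have : ((a.2 : ℕ) : ℤ) < ((lab τ).1.2 : ℕ) := by exact_mod_cast e4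
      rw [e3]
      linarith
  · intro hn
    have e1 : ¬ (d a < (lab τ).2 ∨ (d a = (lab τ).2 ∧ (a.2 : ℕ) < (lab τ).1.2)) :=
      fun e => hn ⟨a, τ, ha, rfl, h9, e⟩
    rcases lt_trichotomy (d a) (lab τ).2 with e2 | e2 | e2
    · exact absurd (Or.inl e2) e1
    · have e3 : (a.2 : ℕ) ≠ (lab τ).1.2 := fun e => by
        have e4 : a.1 = (lab τ).1.1 := h9.trans (hl.vert τ).symm
        have e5 : a = (lab τ).1 := Sigma.ext e4 ((Fin.heq_ext_iff (by rw [e4])).2 e)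
        have := hl.lt τ
        rw [← e5] at this
        omega
      have : (((lab τ).1.2 : ℕ) : ℤ) < (a.2 : ℕ) := by omega
      rw [e2]
      linarith
    · have : ((lab τ).2 : ℤ) + 1 ≤ d a := by exact_mod_cast e2
      nlinarith

theorem ell_gh (M' : ℤ) {p q : Nb Q w v D} (h : shS lab kc p q) :
    0 < ell σ d ((∑ i, v i : ℕ) : ℤ) M' (xs σ d lab q - xs σ d lab p - 0) := by
  obtain ⟨⟨⟨-, -, h2⟩, h3⟩, -⟩ := h
  rw [sub_zero, map_sub]
  rcases h3 with h3 | ⟨a, b, rfl, rfl, h3⟩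
  · obtain ⟨τ, rfl⟩ := blk_zero (show blk p = 0 by omega)
    rcases q with τ' | b | b
    · simp [blk] at h3
    · have h6 := idx_lt b
      rw [ell_pos (p := .inl τ) (a := (lab τ).1) (k := (lab τ).2 + 1) _ _ rfl,
        ell_pos (p := .inr (.inl b)) (a := b) (k := 0) _ _ rfl]
      push_cast at h6 ⊢
      nlinarith [Int.natCast_nonneg (b.2 : ℕ), Int.natCast_nonneg ((lab τ).1.2 : ℕ),
        Int.natCast_nonneg (lab τ).2]
    · simp [blk] at h2
  · rw [ell_pos (p := .inr (.inl a)) (a := a) (k := 0) _ _ rfl,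
      ell_pos (p := .inr (.inl b)) (a := b) (k := 0) _ _ rfl]
    omega

theorem slW : SlWStmt := by
  intro Q w v D J _ _ σ d lab hl _
  refine ⟨fun φ g hg => ?_, fun g hg => ?_, fun p q h => ?_, ?_, fun Λ hΛ F ψ hF => ?_⟩
  · rcases g with (⟨ε | _ | _, p, q⟩ | j) | (⟨ε | _ | _, p, q⟩ | j)
    all_goals first
      | exact hg.elim
      | simp [wt, ofM, lvG, lvk, co0_xs, co0_arr, qq, hb, tau, co_gen]
  · rcases g with (⟨τ, p, q⟩ | j) | (⟨τ, p, q⟩ | j)
    · obtain ⟨h1, h2⟩ := hg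
      change shS lab (.inl τ) p q
      rw [h1]
      exact ne_shS hl h2
    · exact hg.elim
    · cases hg.1
    · exact hg.elim
  · obtain ⟨⟨⟨-, h2, -⟩, h3⟩, h4⟩ := h
    obtain ⟨τ, rfl⟩ := blk_zero h3
    obtain ⟨a, ha⟩ := top_pos hl h2 (h4 rfl)
    have := hl.lt τ
    simp only [lvk, (pos_lv (σ := σ) ha).1]
    simp only [lv]
    omega
  · refine ⟨ell σ d ((∑ i, v i : ℕ) : ℤ) (((∑ i, v i : ℕ) : ℤ) * (1 + (∑ a, d a : ℕ)) + 1),
      fun φ g hg => ?_⟩
    have hM : (0 : ℤ) ≤ (∑ i, v i : ℕ) := Int.natCast_nonneg _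
    have hN : (0 : ℤ) ≤ (∑ i, v i : ℕ) * (1 + (∑ a, d a : ℕ)) := by positivity
    rcases g with (⟨ε | _ | _, p, q⟩ | j) | (⟨ε | _ | _, p, q⟩ | j)
    rotate_left 2
    · exact ⟨fun h => (ell_al hl _ hg).1 h.2, fun h => (ell_al hl _ hg).2 fun h' => h ⟨rfl, h'⟩⟩
    · exact hg.elim
    rotate_left 2
    · exact ⟨fun h => (by cases h.1), fun _ => ell_gh _ hg⟩
    · exact hg.elim
    all_goals
      refine ⟨fun h => (by cases h.1), fun _ => ?_⟩
      simp only [wt, ofM, map_sub, map_neg, map_add, hb, ell_arr, ell_qq, ell_tau]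
      linarith [(ell_bd (σ := σ) hl (((∑ i, v i : ℕ) : ℤ) * (1 + (∑ a, d a : ℕ)) + 1) p).1,
        (ell_bd (σ := σ) hl (((∑ i, v i : ℕ) : ℤ) * (1 + (∑ a, d a : ℕ)) + 1) q).2]
  · refine subst_mem Λ _ (fun e he => ?_) hF
    have hq : Λ qq = qq := hΛ.fix _ (free_gen (by omega))
    have hX : ∀ e : Ix Q w v D J, E0S lab (.inl e) → wt (xs σ d lab) (0 : J → G) (.inl e) =
        Λ (wt bw (0 : J → G) (.inl e)) → (pol (X e) : Sp (Ix Q w v D J) (Ix Q w v D J)) ∈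
        mono fun μ => sup (E0S lab) μ ∧
          ws (wt (xs σ d lab) (0 : J → G)) μ = Λ (wt bw (0 : J → G) (.inl e)) := fun e h1 h2 => by
      refine bas_mem (S := ∅) (m := Finsupp.single e 1) ?_
      rw [← zero_add (Finsupp.single e 1), ex_add, ex_zero, zero_add, sup_single, ws_single]
      exact ⟨h1, h2⟩
    rcases e with ⟨ε | _ | _, p, q⟩ | j
    · refine hX _ ⟨⟨he.1, fun h => by cases h⟩, he.2⟩ ?_
      have h1 : Λ tau = tau := hΛ.fix _ (free_gen (by omega))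
      have h2 : ∀ e, Λ (tE e) = tE e := fun e => hΛ.fix _ (free_gen (by omega))
      rcases ε with ⟨_ | e, _ | _⟩ <;> simp [wt, ofM, arrWt, hΛ.bas, h1, h2]
    · cases he.2
    · have h1 : wt (xs σ d lab) (0 : J → G) (.inl (.inl (.inr true, p, q))) =
          Λ (wt bw (0 : J → G) (.inl (.inl (.inr true, p, q)))) := by
        simp [wt, ofM, hΛ.bas, hq]
      dsimp only
      split_ifs with ht
      · exact hX _ ⟨⟨he.1, fun _ => ht⟩, he.2⟩ h1
      · refine pol_mem.2 fun m hm => ?_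
        rw [coeff_C] at hm
        obtain ⟨rfl, h2⟩ := ite_ne_right_iff.1 hm
        rw [ex_zero, ws_zero, ← h1]
        refine ⟨fun _ h => absurd rfl h, ?_⟩
        rcases q with τ | q
        · have h3 : hp lab p = some ((lab τ).1, (lab τ).2) := (ite_ne_right_iff.1 h2).1
          have h4 : hp (w := w) lab (.inl τ) = some ((lab τ).1, (lab τ).2 + 1) := rfl
          simp only [wt, ofM]
          rw [(pos_lv h3).2, (pos_lv h4).2, (pos_lv (σ := σ) h3).1, (pos_lv (σ := σ) h4).1]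
          push_cast
          module
        · exact absurd rfl h2
    · exact he.1.elim

end Pool.Agent.MP_8be872_ag.H52
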